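import Pool.Agent.H57.FsE

set_option autoImplicit false

namespace Pool.Agent.Results.MP_0cbb3c_lc.FailsCofOmega

open Cardinal Order Set

/-- The relation `R(κ)`: every 2-colouring of the pairs of `κ⁺` has an injective copy of some
`G(A, B)` in colour `1` or a set of size `cf(κ)⁺` homogeneous in colour `0`. -/
def R (κ : Cardinal.{0}) : Prop :=
  ∀ f : Sym2 (succ κ).ord.ToType → Fin 2,
    (∃ A B : Set (succ κ).ord.ToType, #A = succ κ ∧ #B = succ κ ∧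
      ∃ φ : (succ κ).ord.ToType → (succ κ).ord.ToType, InjOn φ (A ∪ B) ∧
        ∀ ξ ∈ A, ∀ η ∈ B, ξ < η → f s(φ ξ, φ η) = 1) ∨
    ∃ H : Set (succ κ).ord.ToType, #H = succ κ.ord.cof ∧
      ∀ x ∈ H, ∀ y ∈ H, x ≠ y → f s(x, y) = 0

theorem fails (gch : ∀ c : Cardinal.{0}, ℵ₀ ≤ c → 2 ^ c = succ c) (κ : Cardinal.{0})
    (h1 : κ.IsSingular) (h2 : κ.ord.cof = ℵ₀) : ¬ R κ := fun h => by
  have Rg := H82.LadA.reg_toType (isRegular_succ h1.aleph0_le)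
  obtain ⟨μ, m0, m1, m2, m3⟩ := H57.Fs.seq1 h1 h2
  obtain ⟨f, f1, f2, f3⟩ := H57.Fs.main3 Rg (gch κ h1.aleph0_le) (ν := fun n => succ (μ n)) m0
    (fun _ => le_rfl) (fun n => (gch _ ((m0 n).trans (le_succ _))).trans_le (m1 n)) m2 m3
  obtain ⟨g, g1, g2⟩ := H57.Fs.colour Rg f1 f2 f3
  rcases h g with ⟨A, B, k1, k2, φ, k3, k4⟩ | ⟨H, k1, k2⟩
  · exact g1 A B k1 k2 φ k3 k4
  · rw [h2] at k1
    exact (lt_succ ℵ₀).not_ge (k1.ge.trans (le_aleph0_iff_set_countable.2 (g2 H k2)))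

theorem result (gch : ∀ c : Cardinal.{0}, ℵ₀ ≤ c → 2 ^ c = succ c) :
    (∀ κ : Cardinal.{0}, κ.IsSingular → κ.ord.cof = ℵ₀ → ¬ R κ) ∧
      ¬ ∀ κ : Cardinal.{0}, κ.IsSingular → R κ :=
  ⟨fails gch, fun h => fails gch _ isSingular_aleph_omega0 (by
    rw [ord_aleph, Ordinal.cof_omega Ordinal.isSuccLimit_omega0, Ordinal.cof_omega0])
      (h _ isSingular_aleph_omega0)⟩

end Pool.Agent.Results.MP_0cbb3c_lc.FailsCofOmega
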